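import Pool.Agent.H56.Chan2

namespace Pool.Agent.Results.MP_a4cf75_mp.NotMono

open Pool.Agent.H56.Chan

/-- For `t = 2`, `d = dE = 2` the squared norm `N_{2,k}(2,2)` is strictly increasing in `k`
from `k = 4` on; so `N_{t,k}(d,dE)` is not non-increasing in `k`. -/
theorem result : ∀ k : ℕ, 4 ≤ k → N 2 k 2 2 < N 2 (k + 1) 2 2 := by
  intro k hk
  obtain ⟨j, rfl⟩ : ∃ j, k = j + 1 := ⟨k - 1, by omega⟩
  rw [N_val, N_val, pow_succ (2/5:ℝ) (j + 1)]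
  have h0 : 0 < (2/5:ℝ) ^ (j + 1) := by positivity
  have h1 : (2/5:ℝ) ^ (j + 1) ≤ (2/5:ℝ) ^ 4 :=
    pow_le_pow_of_le_one (by norm_num) (by norm_num) hk
  generalize (2/5:ℝ) ^ (j + 1) = m at h0 h1
  nlinarith

end Pool.Agent.Results.MP_a4cf75_mp.NotMono
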